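import Pool.Agent.helper23.F2.Spec

/-!
# MP_26dbae_co (S07735), row AL2: the average lemma, conflicts between the two walks
-/

set_option autoImplicit false

open scoped BigOperators

namespace Pool.Agent.F2

open Pool.Agent.helper23.TH

noncomputable section

open Classical

theorem AL2_nsq_nonneg {V : Type} [Fintype V] (M : Matrix V V ℝ) : 0 ≤ nsq M :=
  Finset.sum_nonneg fun _ _ => Finset.sum_nonneg fun _ _ => sq_nonneg _

theorem AL2_FF_nonneg {V L : Type} [Fintype V] [Fintype L] {b s : ℕ} (G : LG V L b s) (t : ℕ) (o : Ob t) :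
    0 ≤ G.FF t o := Finset.sum_nonneg fun _ _ => AL2_nsq_nonneg _

theorem AL2 (hWK2 : WK2_stmt) (hMT6 : MT6_stmt) (hMT7 : MT7_stmt) (hMT8 : MT8_stmt) : AL2_stmt := by
  intro V L _ _ b s G Δ t η hΔ hΔ0 hη0 hη1 hst
  have hb : (0 : ℝ) ≤ b := Nat.cast_nonneg b
  have hs : (0 : ℝ) ≤ s := Nat.cast_nonneg s
  have hn : 0 ≤ hh G.A t :=
    Finset.sum_nonneg fun _ _ => Finset.sum_nonneg fun _ _ => sq_nonneg _
  have hη2 : η ^ 2 ≤ 1 := by nlinarith
  have hFin : ∀ o : Ob t, Inn o → G.FF t o ≤ b * s * (η ^ 2 * hh G.A t) := by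
    rintro (i | j) ho
    · have h0 : i ≠ 0 := fun h => ho.1 (by rw [h])
      have h1 : i ≠ Fin.last t := fun h => ho.2 (by rw [h])
      refine (hMT7 V L b s G Δ hΔ t i h0 h1).trans ?_
      calc (b : ℝ) * s * Δ * hh G.A (t - 1) = (b * s) * (Δ * hh G.A (t - 1)) := by ring
        _ ≤ (b * s) * (η ^ 2 * hh G.A t) := mul_le_mul_of_nonneg_left hst (mul_nonneg hb hs)
    · refine (hMT8 V L b s G Δ hΔ t j).trans ?_
      calc (b : ℝ) * s * Δ * hh G.A (t - 1) = (b * s) * (Δ * hh G.A (t - 1)) := by ring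
        _ ≤ (b * s) * (η ^ 2 * hh G.A t) := mul_le_mul_of_nonneg_left hst (mul_nonneg hb hs)
  have hAny : ∀ o : Ob t, G.FF t o ≤ b * (s + 1) * hh G.A t := by
    intro o
    by_cases ho : Inn o
    · refine (hFin o ho).trans ?_
      have h1 : η ^ 2 * hh G.A t ≤ hh G.A t := by nlinarith
      calc (b : ℝ) * s * (η ^ 2 * hh G.A t) ≤ b * s * hh G.A t :=
            mul_le_mul_of_nonneg_left h1 (mul_nonneg hb hs)
        _ ≤ b * (s + 1) * hh G.A t := by
            have := mul_nonneg hb hn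
            nlinarith
    · have h1 : G.FF t o ≤ b * hh G.A t := by
        unfold Inn at ho
        by_cases h2 : o = .inl 0
        · rw [h2]
          exact (hMT6 V L b s G t).1
        · have h3 : o = .inl (Fin.last t) := by
            by_contra h3
            exact ho ⟨h2, h3⟩
          rw [h3]
          exact (hMT6 V L b s G t).2
      refine h1.trans ?_
      have h2 := mul_nonneg (mul_nonneg hb hs) hn
      nlinarith
  have hprod : ∀ o o' : Ob t, (Inn o ∨ Inn o') → G.FF t o * G.FF t o' ≤ (b * (s + 1) * η * hh G.A t) ^ 2 := by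
    have key : ∀ o o' : Ob t, Inn o → G.FF t o * G.FF t o' ≤ (b * (s + 1) * η * hh G.A t) ^ 2 := by
      intro o o' ho
      calc G.FF t o * G.FF t o' ≤ (b * s * (η ^ 2 * hh G.A t)) * (b * (s + 1) * hh G.A t) :=
            mul_le_mul (hFin o ho) (hAny o') (AL2_FF_nonneg G t o') (by positivity)
        _ ≤ (b * (s + 1) * (η ^ 2 * hh G.A t)) * (b * (s + 1) * hh G.A t) := by
            refine mul_le_mul_of_nonneg_right ?_ (by positivity)
            refine mul_le_mul_of_nonneg_right ?_ (by positivity)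
            nlinarith
        _ = (b * (s + 1) * η * hh G.A t) ^ 2 := by ring
    intro o o' h
    rcases h with h | h
    · exact key o o' h
    · rw [mul_comm]
      exact key o' o h
  have hpair : ∀ o o' : Ob t, (Inn o ∨ Inn o') →
      (((PP G.A t).filter fun q => ¬ Disjoint (G.obj q.1 o) (G.obj q.2 o')).card : ℝ) ≤
        b * (s + 1) * η * hh G.A t := by
    intro o o' h
    exact abs_le_of_sq_le_sq' ((hWK2 V L b s G t o o').trans (hprod o o' h)) (by positivity) |>.2
  have hsub : ((PP G.A t).filter fun q => G.XC q.1 q.2) ⊆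
      (Finset.univ.filter fun r : Ob t × Ob t => Inn r.1 ∨ Inn r.2).biUnion
        fun r => (PP G.A t).filter fun q => ¬ Disjoint (G.obj q.1 r.1) (G.obj q.2 r.2) := by
    intro q hq
    rw [Finset.mem_filter] at hq
    obtain ⟨hq1, o, o', ho, hd⟩ := hq
    rw [Finset.mem_biUnion]
    exact ⟨(o, o'), Finset.mem_filter.2 ⟨Finset.mem_univ _, ho⟩, Finset.mem_filter.2 ⟨hq1, hd⟩⟩
  have h1 : (((PP G.A t).filter fun q => G.XC q.1 q.2).card : ℝ) ≤
      ∑ r ∈ Finset.univ.filter (fun r : Ob t × Ob t => Inn r.1 ∨ Inn r.2),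
        (((PP G.A t).filter fun q => ¬ Disjoint (G.obj q.1 r.1) (G.obj q.2 r.2)).card : ℝ) := by
    have h2 := (Finset.card_le_card hsub).trans Finset.card_biUnion_le
    exact_mod_cast h2
  refine h1.trans ?_
  have h2 : ∑ r ∈ Finset.univ.filter (fun r : Ob t × Ob t => Inn r.1 ∨ Inn r.2),
        (((PP G.A t).filter fun q => ¬ Disjoint (G.obj q.1 r.1) (G.obj q.2 r.2)).card : ℝ) ≤
      ∑ _r ∈ Finset.univ.filter (fun r : Ob t × Ob t => Inn r.1 ∨ Inn r.2), b * (s + 1) * η * hh G.A t :=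
    Finset.sum_le_sum fun r hr => hpair r.1 r.2 (Finset.mem_filter.1 hr).2
  refine h2.trans ?_
  rw [Finset.sum_const, nsmul_eq_mul]
  have h3 : ((Finset.univ.filter (fun r : Ob t × Ob t => Inn r.1 ∨ Inn r.2)).card : ℝ) ≤ (2 * t + 1) ^ 2 := by
    have h4 := Finset.card_filter_le (Finset.univ : Finset (Ob t × Ob t)) (fun r => Inn r.1 ∨ Inn r.2)
    have h5 : (Finset.univ : Finset (Ob t × Ob t)).card = (2 * t + 1) ^ 2 := by
      rw [Finset.card_univ, Fintype.card_prod, Fintype.card_sum, Fintype.card_fin, Fintype.card_fin]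
      ring
    rw [h5] at h4
    exact_mod_cast h4
  calc ((Finset.univ.filter (fun r : Ob t × Ob t => Inn r.1 ∨ Inn r.2)).card : ℝ) *
        (b * (s + 1) * η * hh G.A t) ≤ (2 * t + 1) ^ 2 * (b * (s + 1) * η * hh G.A t) :=
        mul_le_mul_of_nonneg_right h3 (by positivity)
    _ = (2 * t + 1) ^ 2 * (b * (s + 1)) * η * hh G.A t := by ring

end

end Pool.Agent.F2
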